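import Pool.Agent.H8.BV.Targets

/-!
# LAI: Kronecker pencils, outside a finite set of parameters (helper54)
-/

set_option autoImplicit false

open MvPolynomial
open Pool.Agent.H12.ZD (pmap)
open Pool.Agent.H18.HIT Pool.Agent.H18.HX Pool.Agent.H18.VZ
open Pool.Agent.H8.BIG (KF line)
open Pool.Agent.H8.BV

namespace Pool.Agent.H54.BV

theorem pf_LAI (hKER : Pool.Agent.H18.HIT.T_KER) : T_LAI := by
  classical
  intro k _ _ V U _ _ _ _ _ A B Z hAB
  obtain ⟨ε0, hε0⟩ := Infinite.exists_notMem_finset Z
  obtain ⟨w1, hw1, -⟩ := hAB ε0 hε0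
  have hV : Nontrivial V := ⟨⟨w1, 0, hw1⟩⟩
  have hn : 1 ≤ Module.finrank k V := Module.finrank_pos
  let b := Module.finBasis k V
  obtain ⟨W, hW⟩ : ∃ W : Module.Dual k U → Fin (Module.finrank k V) → Polynomial k,
      ∀ l j, W l j = Polynomial.C (l (A (b j))) + Polynomial.X * Polynomial.C (l (B (b j))) :=
    ⟨fun l j => Polynomial.C (l (A (b j))) + Polynomial.X * Polynomial.C (l (B (b j))),
      fun _ _ => rfl⟩
  have hdet : ∀ s : Fin (Module.finrank k V) → Module.Dual k U,
      Matrix.det (Matrix.of fun i j => W (s i) j) = 0 := by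
    intro s
    refine Polynomial.eq_of_infinite_eval_eq _ _ (Set.Infinite.mono (s := {ε : k | ε ∉ Z}) ?_
      (Set.Finite.infinite_compl Z.finite_toSet))
    intro ε hε
    obtain ⟨w0, hw0, hw0'⟩ := hAB ε hε
    rw [Set.mem_ofPred_eq, Polynomial.eval_zero, ← Polynomial.coe_evalRingHom, RingHom.map_det]
    refine Matrix.exists_mulVec_eq_zero_iff.1 ⟨fun j => b.repr w0 j, ?_, ?_⟩
    · intro h
      apply hw0
      have h1 : b.repr w0 = 0 := Finsupp.ext fun j => congrFun h j
      exact b.repr.map_eq_zero_iff.1 h1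
    · funext i
      have h1 : s i (A w0 + ε • B w0) = 0 := by rw [hw0', map_zero]
      have h2 : w0 = ∑ j, b.repr w0 j • b j := (b.sum_repr w0).symm
      have h3 : s i (A w0) = ∑ j, b.repr w0 j * s i (A (b j)) := by
        conv_lhs => rw [h2]
        rw [map_sum, map_sum]
        exact Finset.sum_congr rfl fun j _ => by rw [map_smul, map_smul, smul_eq_mul]
      have h4 : s i (B w0) = ∑ j, b.repr w0 j * s i (B (b j)) := by
        conv_lhs => rw [h2]
        rw [map_sum, map_sum]
        exact Finset.sum_congr rfl fun j _ => by rw [map_smul, map_smul, smul_eq_mul]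
      rw [map_add, map_smul, smul_eq_mul, h3, h4, Finset.mul_sum, ← Finset.sum_add_distrib] at h1
      rw [Pi.zero_apply, ← h1]
      change ∑ j, Polynomial.eval ε (W (s i) j) * b.repr w0 j = _
      refine Finset.sum_congr rfl fun j _ => ?_
      rw [hW, Polynomial.eval_add, Polynomial.eval_mul, Polynomial.eval_C, Polynomial.eval_X,
        Polynomial.eval_C]
      ring
  obtain ⟨g, hg0, hg⟩ := hKER (FractionRing (Polynomial k)) (Module.Dual k U)
    (Module.finrank k V) (fun l j => algebraMap (Polynomial k) (FractionRing (Polynomial k)) (W l j))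
    (fun s => by
      have h1 := congrArg (algebraMap (Polynomial k) (FractionRing (Polynomial k))) (hdet s)
      rw [RingHom.map_det, map_zero] at h1
      exact h1) hn
  obtain ⟨d, hd⟩ := IsLocalization.exist_integer_multiples_of_finite
    (nonZeroDivisors (Polynomial k)) g
  choose G hG using hd
  have hinj := IsFractionRing.injective (Polynomial k) (FractionRing (Polynomial k))
  have hd0 : algebraMap (Polynomial k) (FractionRing (Polynomial k)) (d : Polynomial k) ≠ 0 := by
    rw [Ne, IsFractionRing.to_map_eq_zero_iff]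
    exact nonZeroDivisors.coe_ne_zero d
  have hGs : ∀ l, ∑ j, G j * W l j = 0 := by
    intro l
    apply hinj
    rw [map_sum, map_zero]
    have h1 := congrArg (fun z => algebraMap (Polynomial k) (FractionRing (Polynomial k))
      (d : Polynomial k) * z) (hg l)
    simp only [mul_zero, Finset.mul_sum] at h1
    rw [← h1]
    refine Finset.sum_congr rfl fun j _ => ?_
    rw [map_mul, hG j, Algebra.smul_def, mul_assoc]
  have hGne : ∃ i j, (G j).coeff i ≠ 0 := by
    by_contra hcon
    push Not at hcon
    apply hg0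
    funext j
    have h1 : G j = 0 := Polynomial.ext fun i => by rw [hcon i j, Polynomial.coeff_zero]
    have h2 := hG j
    rw [h1, map_zero, Algebra.smul_def] at h2
    exact (mul_eq_zero.1 h2.symm).resolve_left hd0
  obtain ⟨m, ⟨j0, hj0⟩, hmin⟩ : ∃ m, (∃ j, (G j).coeff m ≠ 0) ∧
      ∀ i, i < m → ∀ j, (G j).coeff i = 0 := by
    refine ⟨Nat.find hGne, Nat.find_spec hGne, fun i hi j => ?_⟩
    have := Nat.find_min hGne hi
    push Not at this
    exact this j
  have hcf : ∀ (l : Module.Dual k U) (i : ℕ),
      ∑ j, ((G j).coeff (i + 1) * l (A (b j)) + (G j).coeff i * l (B (b j))) = 0 := by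
    intro l i
    have h1 := congrArg (fun p => Polynomial.coeff p (i + 1)) (hGs l)
    simp only [Polynomial.finsetSum_coeff, Polynomial.coeff_zero] at h1
    rw [← h1]
    refine Finset.sum_congr rfl fun j _ => ?_
    have e : G j * W l j = G j * Polynomial.C (l (A (b j))) +
        G j * Polynomial.C (l (B (b j))) * Polynomial.X := by
      rw [hW]
      ring
    rw [e, Polynomial.coeff_add, Polynomial.coeff_mul_C, Polynomial.coeff_mul_X,
      Polynomial.coeff_mul_C]
  have hcf0 : ∀ (l : Module.Dual k U), ∑ j, (G j).coeff 0 * l (A (b j)) = 0 := by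
    intro l
    have h1 := congrArg (fun p => Polynomial.coeff p 0) (hGs l)
    simp only [Polynomial.finsetSum_coeff, Polynomial.coeff_zero] at h1
    rw [← h1]
    refine Finset.sum_congr rfl fun j _ => ?_
    have e : G j * W l j = G j * Polynomial.C (l (A (b j))) +
        G j * Polynomial.C (l (B (b j))) * Polynomial.X := by
      rw [hW]
      ring
    rw [e, Polynomial.coeff_add, Polynomial.coeff_mul_C, Polynomial.coeff_mul_X_zero, add_zero]
  have hl : ∀ (l : Module.Dual k U) (E : V →ₗ[k] U) (c : Fin (Module.finrank k V) → k),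
      l (E (∑ j, c j • b j)) = ∑ j, c j * l (E (b j)) := by
    intro l E c
    rw [map_sum, map_sum]
    exact Finset.sum_congr rfl fun j _ => by rw [map_smul, map_smul, smul_eq_mul]
  refine ⟨1 + ∑ j, (G j).natDegree, fun i => ∑ j, (G j).coeff (m + i) • b j, ?_, ?_,
    fun i => ?_, fun i hi => ?_⟩
  · intro h
    apply hj0
    have h1 := b.repr_sum_self fun j => (G j).coeff (m + 0)
    have h2 := congrArg b.repr h
    have h3 : (∑ j, (G j).coeff (m + 0) • b j) = 0 := h
    rw [h3, map_zero] at h1
    have h4 := congrFun h1 j0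
    exact h4.symm
  · refine (Module.forall_dual_apply_eq_zero_iff k _).1 fun l => ?_
    change l (A (∑ j, (G j).coeff (m + 0) • b j)) = 0
    rw [hl l A]
    rcases Nat.eq_zero_or_pos m with h0 | h0
    · rw [h0]
      exact hcf0 l
    · obtain ⟨m', rfl⟩ : ∃ m', m = m' + 1 := ⟨m - 1, by omega⟩
      rw [← hcf l m']
      refine Finset.sum_congr rfl fun j _ => ?_
      rw [hmin m' (by omega) j, zero_mul, add_zero, add_zero]
  · refine (Module.forall_dual_apply_eq_zero_iff k _).1 fun l => ?_
    change l (A (∑ j, (G j).coeff (m + (i + 1)) • b j) + B (∑ j, (G j).coeff (m + i) • b j)) = 0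
    rw [map_add, hl l A, hl l B, ← Finset.sum_add_distrib]
    exact hcf l (m + i)
  · refine Finset.sum_eq_zero fun j _ => ?_
    have h1 : (G j).natDegree ≤ ∑ j, (G j).natDegree :=
      Finset.single_le_sum (f := fun j => (G j).natDegree)
        (fun _ _ => Nat.zero_le _) (Finset.mem_univ j)
    rw [Polynomial.coeff_eq_zero_of_natDegree_lt (by omega), zero_smul]

end Pool.Agent.H54.BV
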